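import Pool.Agent.TH115.SK.Defs

/-!
# The number of generators of the 2-adic Selmer group over `k(t)`
-/

set_option autoImplicit false
set_option linter.all false

open Polynomial IsDedekindDomain WeierstrassCurve WeierstrassCurve.Affine
open scoped Classical

namespace Pool.Agent.TH115.GD

/-- The 2-adic Selmer group of `W` over `K = k(t)` (the classes of the continuous cocycles of
`Gal(Sep K / K)` with values in the Tate module `T_2 W` which are coboundaries, at each level, over the
completions of `K` at all closed points of the projective line over `k`) is generated by at most `d`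
elements `e i`: at the level `n` each class `c` is a linear combination of the `e i`, up to the
coboundary of a point `R` with `2 ^ (n + 1) R = 0`. -/
def SelmerGeneratedBy (k : Type) {K : Type} [Field k] [Field K] [Algebra k[X] K]
    [IsFractionRing k[X] K] (W : WeierstrassCurve K) (d : ℕ) : Prop :=
  ∃ (m : ℕ) (e : Fin m → ℕ → (Sep K ≃ₐ[K] Sep K) → Pt W (Sep K)), m ≤ d ∧
    (∀ i, IsTC W (e i) ∧ ∀ n, LocallyTrivial k W (e i n)) ∧
    ∀ c : ℕ → (Sep K ≃ₐ[K] Sep K) → Pt W (Sep K), IsTC W c → (∀ n, LocallyTrivial k W (c n)) →
      ∀ n, ∃ (z : Fin m → ℤ) (R : Pt W (Sep K)), 2 ^ (n + 1) • R = 0 ∧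
        ∀ σ, c n σ = ∑ i, z i • e i n σ + (act W (rs K σ) R - R)

end Pool.Agent.TH115.GD
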