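import Pool.Agent.TH115.SN.Layer
import Pool.Agent.TH115.SN.Defs
import Pool.Agent.TH115.SK.ShaK

/-!
The 2-primary part of the Tate-Shafarevich group over `k(t)` of an elliptic curve without points of
order two, if the rank reaches the bound of the arithmetic 2-descent.
-/

set_option autoImplicit false
set_option linter.all false

open Polynomial IsDedekindDomain WeierstrassCurve WeierstrassCurve.Affine WithZero
open scoped Classical nonZeroDivisors

namespace Pool.Agent.TH115.GD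

section sgn

variable {k K : Type} [Field k] [Field K] [Algebra k[X] K] [IsFractionRing k[X] K]

/-- If the signs of the locally trivial cocycles with values in the points of order two are given by
at most `2 ^ r` functions, and there are `r` independent points, then there are no elements of
2-power order in the Tate-Shafarevich group. -/
theorem sha_of_sign {W : WeierstrassCurve K}
    (hnr : ∀ x : K, cub W x ≠ 0) {a b c : Sep K} (hC : IsC (W.baseChange (Sep K)).toAffine a b c)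
    {ι : Type} [Fintype ι] {r : ℕ} (hd : Fintype.card ι ≤ 2 ^ r)
    (S : ι → (Sep K ≃ₐ[K] Sep K) → Sep K)
    (hS : ∀ f : (Sep K ≃ₐ[K] Sep K) → Pt W (Sep K), IsCoc W f → (∀ σ, f σ + f σ = 0) →
      LocallyTrivial k W f → ∃ i, ∀ σ : Sep K ≃ₐ[K] Sep K, σ a = a → sC a (f σ) = S i σ)
    (P : Fin r → Pt W K)
    (hP : ∀ T : Finset (Fin r), T.Nonempty → ∀ Q : Pt W K, ∑ i ∈ T, P i ≠ Q + Q) :
    ShaTwo k W := by
  have htr := fun x hx => trans_roots (F := K) hC hnr x hx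
  have hdiv : ∀ X : Pt W (Sep K), ∃ Y, Y + Y = X := fun X => halveC hC X
  have PK : ∀ (Q : Pt W K) (φ : Sep K →ₐ[K] Sep K), act W φ (act W (incl K K (Sep K)) Q) =
      act W (incl K K (Sep K)) Q := by
    intro Q φ
    have h1 : φ.comp (incl K K (Sep K)) = incl K K (Sep K) := AlgHom.ext fun x => φ.commutes x
    rw [act_act, h1]
  -- the classes of the points
  have hG : ∀ Q : Pt W K, ∃ G : ℕ → Pt W (Sep K), G 0 = act W (incl K K (Sep K)) Q ∧
      ∀ j, 2 • G (j + 1) = G j := by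
    intro Q
    obtain ⟨H, hH⟩ := hdiv (act W (incl K K (Sep K)) Q)
    obtain ⟨G, G0, -, GS⟩ := halves hdiv hH
    exact ⟨G, G0, GS⟩
  choose G G0 GS using hG
  have hcl : ∀ Q : Pt W K, IsTateClass k W
      (fun n (σ : Sep K ≃ₐ[K] Sep K) => act W (rs K σ) (G Q n) - G Q n) := fun Q =>
    pt_class (G0 Q) (GS Q)
  have G1 : ∀ Q : Pt W K, G Q 1 + G Q 1 = act W (incl K K (Sep K)) Q := by
    intro Q
    rw [← two_nsmul, GS, G0]
  have hd2 : ∀ (Q : Pt W K) (σ : Sep K ≃ₐ[K] Sep K), (act W (rs K σ) (G Q 1) - G Q 1) +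
      (act W (rs K σ) (G Q 1) - G Q 1) = 0 := by
    intro Q σ
    rw [sub_add_sub_comm, ← map_add, G1, PK, sub_self]
  let Q : Finset (Fin r) → Pt W K := fun T => ∑ i ∈ T, P i
  choose Ψ hΨ using fun T : Finset (Fin r) => hS _ ((hcl (Q T)).tc.coc 1) (hd2 (Q T))
    ((hcl (Q T)).loc 1)
  -- a cocycle with trivial signs
  have triv : ∀ {f g : (Sep K ≃ₐ[K] Sep K) → Pt W (Sep K)}, IsCoc W f → IsCoc W g →
      (∀ σ, f σ + f σ = 0) → (∀ σ, g σ + g σ = 0) →
      (∀ σ : Sep K ≃ₐ[K] Sep K, σ a = a → sC a (f σ) = sC a (g σ)) →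
      ∃ R : Pt W (Sep K), R + R = 0 ∧ ∀ σ, f σ + g σ = act W (rs K σ) R - R := by
    intro f g hf hg hf2 hg2 hs
    refine cob1 hC htr (f := fun σ => f σ + g σ) (fun σ τ => ?_) (fun σ => ?_) fun σ hσ => ?_
    · show f (σ * τ) + g (σ * τ) = _
      rw [hf.mul, hg.mul, map_add]
      abel
    · show f σ + g σ + (f σ + g σ) = 0
      rw [add_add_add_comm, hf2, hg2, add_zero]
    · show sC a (f σ + g σ) = 1
      rw [sC_add hC (hf2 σ) (hg2 σ), hs σ hσ, sC_mul_self]
  have hΨinj : Function.Injective Ψ := by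
    intro T T' h
    obtain ⟨R, hR, hR'⟩ := triv ((hcl (Q T)).tc.coc 1) ((hcl (Q T')).tc.coc 1) (hd2 _) (hd2 _)
      (fun σ hσ => by rw [hΨ T σ hσ, hΨ T' σ hσ, h])
    have hR'' : ∀ σ, act W (rs K σ) (G (Q T) 1) - G (Q T) 1 +
        (act W (rs K σ) (G (Q T') 1) - G (Q T') 1) = act W (rs K σ) R - R := hR'
    have hfx : ∀ σ : Sep K ≃ₐ[K] Sep K, act W (rs K σ) (G (Q T) 1 + G (Q T') 1 - R) =
        G (Q T) 1 + G (Q T') 1 - R := by
      intro σ
      rw [← sub_eq_zero]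
      have h5 := hR'' σ
      rw [map_sub, map_add]
      have h6 : act W (rs K σ) (G (Q T) 1) + act W (rs K σ) (G (Q T') 1) - act W (rs K σ) R -
          (G (Q T) 1 + G (Q T') 1 - R) = act W (rs K σ) (G (Q T) 1) - G (Q T) 1 +
        (act W (rs K σ) (G (Q T') 1) - G (Q T') 1) - (act W (rs K σ) R - R) := by abel
      rw [h6, h5, sub_self]
    obtain ⟨Q0, hQ00⟩ := fixed_point (K := K) (F := K) W _ hfx
    have hQ0 : Q0 + Q0 = Q T + Q T' := by
      refine act_inj W (incl K K (Sep K)) ?_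
      rw [map_add, hQ00, sub_add_sub_comm, hR, sub_zero, add_add_add_comm, G1, G1, map_add]
    by_contra hne
    have hnon : (symmDiff T T').Nonempty := by
      rw [Finset.nonempty_iff_ne_empty, ← Finset.bot_eq_empty, Ne, symmDiff_eq_bot]
      exact hne
    have hsum : ∑ i ∈ T, P i + ∑ i ∈ T', P i = ∑ i ∈ symmDiff T T', P i +
        (∑ i ∈ T ∩ T', P i + ∑ i ∈ T ∩ T', P i) := by
      have h1 : ∑ i ∈ T, P i = ∑ i ∈ T \ T', P i + ∑ i ∈ T ∩ T', P i := by
        rw [← Finset.sum_sdiff (Finset.inter_subset_left : T ∩ T' ⊆ T),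
          Finset.sdiff_inter_self_left]
      have h3 : ∑ i ∈ T', P i = ∑ i ∈ T' \ T, P i + ∑ i ∈ T ∩ T', P i := by
        rw [← Finset.sum_sdiff (Finset.inter_subset_right : T ∩ T' ⊆ T'),
          Finset.sdiff_inter_self_right]
      have h4 : ∑ i ∈ symmDiff T T', P i = ∑ i ∈ T \ T', P i + ∑ i ∈ T' \ T, P i := by
        rw [symmDiff_def]
        exact Finset.sum_union (disjoint_sdiff_sdiff)
      rw [h1, h3, h4]
      abel
    apply hP _ hnon (Q0 - ∑ i ∈ T ∩ T', P i)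
    have h5 : ∑ i ∈ symmDiff T T', P i = (∑ i ∈ T, P i + ∑ i ∈ T', P i) -
        (∑ i ∈ T ∩ T', P i + ∑ i ∈ T ∩ T', P i) := by
      rw [hsum]; abel
    have h6 : Q0 + Q0 = ∑ i ∈ T, P i + ∑ i ∈ T', P i := hQ0
    rw [h5, ← h6]
    abel
  have hΨsurj : Function.Surjective Ψ := by
    have h1 := Fintype.card_le_of_injective Ψ hΨinj
    have h3 : Fintype.card (Finset (Fin r)) = 2 ^ r := by
      rw [Fintype.card_finset, Fintype.card_fin]
    exact ((Fintype.bijective_iff_injective_and_card Ψ).2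
      ⟨hΨinj, le_antisymm h1 (by rw [h3]; exact hd)⟩).2
  -- the elements of order two
  have key : ∀ g : (Sep K ≃ₐ[K] Sep K) → Pt W (Sep K), IsCoc W g → LocallyTrivial k W g →
      (∃ R : Pt W (Sep K), ∀ σ, 2 • g σ = act W (rs K σ) R - R) →
      ∃ R : Pt W (Sep K), ∀ σ, g σ = act W (rs K σ) R - R := by
    rintro g hg hl ⟨R, hR⟩
    obtain ⟨S0, hS0⟩ := hdiv R
    set g' : (Sep K ≃ₐ[K] Sep K) → Pt W (Sep K) :=
      fun σ => g σ - (act W (rs K σ) S0 - S0) with hg'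
    have hc' : IsCoc W g' := hg.sub _ (cob_isCoc _ _)
    have hl' : LocallyTrivial k W g' := lt_sub hl S0
    have h22 : ∀ σ, g' σ + g' σ = 0 := by
      intro σ
      show g σ - (act W (rs K σ) S0 - S0) + (g σ - (act W (rs K σ) S0 - S0)) = 0
      have e : g σ - (act W (rs K σ) S0 - S0) + (g σ - (act W (rs K σ) S0 - S0)) =
          2 • g σ - ((act W (rs K σ) S0 + act W (rs K σ) S0) - (S0 + S0)) := by
        rw [two_nsmul]
        abel
      rw [e, hR, ← map_add, hS0, sub_self]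
    obtain ⟨i, hi⟩ := hS g' hc' h22 hl'
    obtain ⟨T, rfl⟩ := hΨsurj i
    obtain ⟨R', hR2, hR'⟩ := triv hc' ((hcl (Q T)).tc.coc 1) h22 (hd2 _)
      (fun σ hσ => by rw [hi σ hσ, hΨ T σ hσ])
    refine ⟨R' - G (Q T) 1 + S0, fun σ => ?_⟩
    have h1 : g' σ + (act W (rs K σ) (G (Q T) 1) - G (Q T) 1) = act W (rs K σ) R' - R' := hR' σ
    have h5 : g σ = (g' σ + (act W (rs K σ) (G (Q T) 1) - G (Q T) 1)) -
        (act W (rs K σ) (G (Q T) 1) - G (Q T) 1) + (act W (rs K σ) S0 - S0) := by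
      show g σ = (g σ - (act W (rs K σ) S0 - S0) + (act W (rs K σ) (G (Q T) 1) - G (Q T) 1)) -
        (act W (rs K σ) (G (Q T) 1) - G (Q T) 1) + (act W (rs K σ) S0 - S0)
      abel
    rw [h5, h1, map_add, map_sub]
    abel
  intro f hf hl ⟨n, hn⟩
  induction n with
  | zero =>
    obtain ⟨R, hR⟩ := hn
    exact ⟨R, fun σ => by rw [← hR, pow_zero, one_smul]⟩
  | succ n ih =>
    apply ih
    have e : (fun σ => (2 ^ n : ℤ) • f σ) = fun σ => 2 ^ n • f σ := by
      funext σ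
      rw [← natCast_zsmul]
      push_cast
      rfl
    refine key (fun σ => 2 ^ n • f σ) ?_ ?_ ?_
    · have := hf.smul W (2 ^ n : ℤ)
      rwa [e] at this
    · rw [← e]
      exact lt_smul hl _
    · obtain ⟨R, hR⟩ := hn
      refine ⟨R, fun σ => ?_⟩
      rw [← hR, pow_succ', mul_smul]

end sgn

section main

variable {k K N R : Type} [Field k] [Field K] [Algebra k[X] K] [IsFractionRing k[X] K]
  [Field N] [Algebra K N] [Algebra k[X] N] [IsScalarTower k[X] K N]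
  [CommRing R] [IsDedekindDomain R] [Algebra R N] [IsFractionRing R N]
  [Algebra k[X] R] [IsScalarTower k[X] R N] [Module.Finite k[X] R] [Module.IsTorsionFree k[X] R]

/-- The signs of the locally trivial cocycles with values in the points of order two. -/
theorem sign_ns (h2 : (2 : k) ≠ 0) {a2 a4 a6 : k[X]}
    (hΔ : (twist K a2 a4 a6 1).Δ ≠ 0)
    (hnr : ∀ x : K, cub (twist K a2 a4 a6 1) x ≠ 0) {θ : N}
    (hθ : cub (twist K a2 a4 a6 1) θ = 0) (hN : IntermediateField.adjoin K {θ} = ⊤)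
    {S0 : Finset N} {d : ℕ} (hS1 : S0.card ≤ 2 ^ d)
    (hS2 : ∀ z : N, z ≠ 0 → (∀ v : HeightOneSpectrum R, IsSquare (v.valuation N z)) →
      ∃ w ∈ S0, ∃ (u : k) (g : N), u ≠ 0 ∧ g ≠ 0 ∧ z = algebraMap k[X] N (C u) * g ^ 2 * w)
    {D : k[X]} (hD0 : D ≠ 0) :
    (∀ x : K, cub (twist K a2 a4 a6 D) x ≠ 0) ∧
    ∃ (a b c : Sep K), IsC ((twist K a2 a4 a6 D).baseChange (Sep K)).toAffine a b c ∧
    ∃ (S : Finset N), S.card ≤ 2 ^ (d + badSum R a2 a4 a6 D θ) ∧
    ∃ Sg : S → (Sep K ≃ₐ[K] Sep K) → Sep K,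
      ∀ f : (Sep K ≃ₐ[K] Sep K) → Pt (twist K a2 a4 a6 D) (Sep K),
      IsCoc _ f → (∀ σ, f σ + f σ = 0) →
      LocallyTrivial k _ f → ∃ i, ∀ σ : Sep K ≃ₐ[K] Sep K, σ a = a → sC a (f σ) = Sg i σ := by
  have h2K : (2 : K) ≠ 0 := tt h2
  have hΔD := twist_disc hD0 hΔ
  rw [twist_one] at hΔ hθ hnr
  have hdK : algebraMap k[X] K D ≠ 0 := by
    rw [Ne, map_eq_zero_iff _ (IsFractionRing.injective k[X] K)]
    exact hD0
  have hnrD : ∀ x : K, cub (twist K a2 a4 a6 D) x ≠ 0 := by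
    intro x
    have e : x = algebraMap K K (algebraMap k[X] K D) *
        (x / algebraMap k[X] K D) := by
      rw [Algebra.algebraMap_self, RingHom.id_apply, mul_div_cancel₀ _ hdK]
    rw [e, twist_eq, cub_tw]
    exact mul_ne_zero (pow_ne_zero 3 hdK) (hnr _)
  obtain ⟨hfd, hsep⟩ := sepN (N := N) rfl rfl hΔ hθ hN
  let i : N →ₐ[K] Sep K := IsSepClosed.lift
  letI : Algebra N (Sep K) := i.toRingHom.toAlgebra
  haveI : IsScalarTower K N (Sep K) := IsScalarTower.of_algebraMap_eq fun x => (i.commutes x).symm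
  obtain ⟨S, hS, hS'⟩ := arith_reps (K := K) (R := R) hΔ hnr hθ hN hS1 hS2 hD0
  set W := (crvC (algebraMap k[X] K (D * a2)) (algebraMap k[X] K (D ^ 2 * a4))
      (algebraMap k[X] K (D ^ 3 * a6))) with hW
  have eW : W = crvC (algebraMap k[X] K D * algebraMap k[X] K a2)
      (algebraMap k[X] K D ^ 2 * algebraMap k[X] K a4)
      (algebraMap k[X] K D ^ 3 * algebraMap k[X] K a6) := by
    rw [hW, map_mul, map_mul, map_mul, map_pow, map_pow]
  set dd : N := algebraMap K N (algebraMap k[X] K D) with hd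
  have hd0 : dd ≠ 0 := (_root_.map_ne_zero _).2 hdK
  have hNtop : IntermediateField.adjoin K {dd * θ} = ⊤ := by
    rw [eq_top_iff, ← hN, IntermediateField.adjoin_le_iff, Set.singleton_subset_iff]
    have h1 : θ = algebraMap K N (algebraMap k[X] K D)⁻¹ * (dd * θ) := by
      rw [map_inv₀, ← hd, inv_mul_cancel_left₀ hd0]
    have h3 := mul_mem (IntermediateField.algebraMap_mem (IntermediateField.adjoin K {dd * θ})
      (algebraMap k[X] K D)⁻¹) (IntermediateField.mem_adjoin_simple_self K (dd * θ))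
    rw [← h1] at h3
    exact h3
  set a : Sep K := algebraMap N (Sep K) (dd * θ) with ha
  have hcubN : cub W (dd * θ) = 0 := by
    rw [eW]
    have e := cub_tw (L := N) (algebraMap k[X] K a2) (algebraMap k[X] K a4)
      (algebraMap k[X] K a6) (algebraMap k[X] K D) θ
    rw [← hd, hθ, mul_zero] at e
    exact e
  have hcuba : cub W a = 0 := by
    have h1 := cub_map W (IsScalarTower.toAlgHom K N (Sep K)) (dd * θ)
    rw [hcubN, map_zero] at h1
    exact h1
  obtain ⟨b, c, hC⟩ := exists_isC (W := W) rfl rfl hΔD h2K hcuba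
  -- the roots
  have h2S : (2 : Sep K) ≠ 0 := by
    have h1 : IsUnit (2 : K) := isUnit_iff_ne_zero.2 h2K
    have h3 := h1.map (algebraMap K (Sep K))
    rw [map_ofNat] at h3
    exact h3.ne_zero
  haveI : NeZero ((2 : ℕ) : Sep K) := ⟨by exact_mod_cast h2S⟩
  have hroot : ∀ w : N, ∃ r : Sep K, r ^ 2 = algebraMap N (Sep K) w := fun w =>
    IsSepClosed.exists_pow_nat_eq _ 2
  choose q hq using hroot
  refine ⟨hnrD, a, b, c, hC, S, hS, fun i σ => σ (q i.1) / q i.1, ?_⟩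
  intro f hf hf2 hloc
  obtain ⟨t, z, ht, hz0, hz, hk, hev⟩ := layerK (R := R) hC hnrD rfl hNtop hf hf2 hloc
  obtain ⟨w, hw, g, hg, hz1⟩ := hS' z hz0 hev
  refine ⟨⟨w, hw⟩, fun σ hσ => ?_⟩
  have hfixN : ∀ y : N, σ (algebraMap N (Sep K) y) = algebraMap N (Sep K) y := by
    intro y
    obtain ⟨τ', hτ'⟩ := lift_fix hNtop σ hσ
    have h1 := hτ' (algebraMap N (Sep K) y)
    rw [τ'.commutes] at h1
    exact h1.symm
  set m : Sep K := algebraMap N (Sep K) g with hm
  have hmfix : σ m = m := hfixN g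
  have hw0 : w ≠ 0 := by
    rintro rfl
    rw [mul_zero] at hz1
    exact hz0 hz1
  have hrw : q w ≠ 0 := by
    intro h0
    have := hq w
    rw [h0, zero_pow two_ne_zero] at this
    exact hw0 ((map_eq_zero_iff _ (algebraMap N (Sep K)).injective).1 this.symm)
  have htm : t ^ 2 = (m * q w) ^ 2 := by
    rw [hz, hz1, mul_pow, hq, hm, map_mul, map_pow]
  have h1 := hk σ hσ
  have h3 : σ t = (σ (q w) / q w) * t := by
    rcases sq_eq_sq_iff_eq_or_eq_neg.1 htm with h | h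
    · rw [h, map_mul, hmfix]
      field_simp
    · rw [h, map_neg, map_mul, hmfix]
      field_simp
  rw [h3] at h1
  exact (mul_right_cancel₀ ht h1).symm

/-- Over `K` the condition of invariance is void. -/
theorem isInv_self {W : WeierstrassCurve K}
    {c : ℕ → (Sep K ≃ₐ[K] Sep K) → Pt W (Sep K)} (hc : IsTC W c) : IsInv W c := by
  intro τ
  refine ⟨0, fun n => c n τ, ⟨hc.zero τ, fun n => hc.two n τ⟩, fun n σ σ' h => ?_⟩
  have e : τ * σ' = σ * τ := AlgEquiv.ext fun x => h x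
  have h1 := (hc.coc n).mul τ σ'
  have h3 := (hc.coc n).mul σ τ
  rw [e, h3] at h1
  have h5 : act W (ak τ) (c n σ') = act W (rs K τ) (c n σ') := rfl
  rw [pow_zero, one_smul, h5]
  have h7 : act W (rs K τ) (c n σ') = c n σ + act W (rs K σ) (c n τ) - c n τ := by
    rw [h1]; abel
  rw [h7]
  abel

/-- The bound of the arithmetic 2-descent, and the case where it is reached. -/
theorem both_ns (h2 : (2 : k) ≠ 0) {a2 a4 a6 : k[X]}
    (hΔ : (twist K a2 a4 a6 1).Δ ≠ 0)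
    (hnr : ∀ x : K, cub (twist K a2 a4 a6 1) x ≠ 0) {θ : N}
    (hθ : cub (twist K a2 a4 a6 1) θ = 0) (hN : IntermediateField.adjoin K {θ} = ⊤)
    (hfin : Finite {c : ClassGroup R // c ^ 2 = 1}) {U : Finset Rˣ}
    (hU : ∀ ε : Rˣ, ∃ η ∈ U, ∃ (u : k) (v : Rˣ), (ε : R) = algebraMap k[X] R (C u) * v ^ 2 * η)
    {d : ℕ} (hd : Nat.card {c : ClassGroup R // c ^ 2 = 1} * U.card ≤ 2 ^ d)
    {D : k[X]} (hD0 : D ≠ 0) :
    SelmerGeneratedBy k (twist K a2 a4 a6 D) (d + badSum R a2 a4 a6 D θ) ∧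
    ∀ {r : ℕ}, d + badSum R a2 a4 a6 D θ ≤ r → ∀ P : Fin r → Pt (twist K a2 a4 a6 D) K,
      (∀ T : Finset (Fin r), T.Nonempty → ∀ Q : Pt (twist K a2 a4 a6 D) K,
        ∑ i ∈ T, P i ≠ Q + Q) → ShaTwo k (twist K a2 a4 a6 D) := by
  obtain ⟨S0, hS1, hS2⟩ := reps (N := N) hU
  obtain ⟨hnrD, a, b, c, hC, S, hS, Sg, hSg⟩ :=
    sign_ns h2 hΔ hnr hθ hN (hS1.trans hd) hS2 hD0
  constructor
  · obtain ⟨m, e, hm, he, hgen⟩ := gen_of_sign (k' := k) hC
      (fun x hx => trans_roots (F := K) hC hnrD x hx)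
      (by rw [Fintype.card_coe]; exact hS) Sg (fun e he => hSg (e 1) (he.tc.coc 1)
        (fun σ => by rw [← two_nsmul, he.tc.two 0 σ, he.tc.zero]) (he.loc 1))
    exact ⟨m, e, hm, fun i => ⟨(he i).tc, (he i).loc⟩, fun c hc hl =>
      hgen c ⟨hc, hl, isInv_self hc⟩⟩
  · intro r hr P hP
    exact sha_of_sign (k := k) hnrD hC (ι := S) (r := r)
      (by rw [Fintype.card_coe]; exact hS.trans (Nat.pow_le_pow_right (by norm_num) hr))
      Sg hSg P hP

end main

end Pool.Agent.TH115.GD
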