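import Pool.Agent.TH115.SN.Reps

/-!
The arithmetic 2-descent over `k(t)` for elliptic curves without points of order two: the elements of
the cubic field attached to the locally trivial classes.
-/

set_option autoImplicit false
set_option linter.all false

open Polynomial IsDedekindDomain WeierstrassCurve WeierstrassCurve.Affine WithZero
open scoped Classical nonZeroDivisors

namespace Pool.Agent.TH115.GD

section layer

variable {k K N R : Type} [Field k] [Field K] [Algebra k[X] K] [IsFractionRing k[X] K]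
  [Field N] [Algebra K N] [Algebra k[X] N] [IsScalarTower k[X] K N]
  [Algebra N (Sep K)] [IsScalarTower K N (Sep K)]
  [CommRing R] [IsDedekindDomain R] [Algebra R N] [IsFractionRing R N]
  [Algebra k[X] R] [IsScalarTower k[X] R N] [Module.Finite k[X] R] [Module.IsTorsionFree k[X] R]

theorem layerK {a2 a4 a6 D : k[X]} {a b c : Sep K}
    (hC : IsC ((crvC (algebraMap k[X] K (D * a2)) (algebraMap k[X] K (D ^ 2 * a4))
      (algebraMap k[X] K (D ^ 3 * a6))).baseChange (Sep K)).toAffine a b c)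
    (hnr : ∀ x : K, cub (crvC (algebraMap k[X] K (D * a2)) (algebraMap k[X] K (D ^ 2 * a4))
      (algebraMap k[X] K (D ^ 3 * a6))) x ≠ 0)
    {θ : N} (hθ : algebraMap N (Sep K) (algebraMap K N (algebraMap k[X] K D) * θ) = a)
    (hNtop : IntermediateField.adjoin K {algebraMap K N (algebraMap k[X] K D) * θ} = ⊤)
    [FiniteDimensional K N] [Algebra.IsSeparable K N]
    {f : (Sep K ≃ₐ[K] Sep K) → Pt (crvC (algebraMap k[X] K (D * a2))
      (algebraMap k[X] K (D ^ 2 * a4)) (algebraMap k[X] K (D ^ 3 * a6))) (Sep K)}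
    (hf : IsCoc _ f) (hf2 : ∀ σ, f σ + f σ = 0) (hloc : LocallyTrivial k _ f) :
    ∃ (t : Sep K) (z : N), t ≠ 0 ∧ z ≠ 0 ∧ t ^ 2 = algebraMap N (Sep K) z ∧
      (∀ σ : Sep K ≃ₐ[K] Sep K, σ a = a → σ t = sC a (f σ) * t) ∧
      EvB K R a2 a4 a6 D θ z := by
  have hmul : ∀ σ τ : Sep K ≃ₐ[K] Sep K, f (σ * τ) = f σ + act _ (ak σ) (f τ) := fun σ τ =>
    hf.mul σ τ
  obtain ⟨t, z, ht, hz, hk⟩ := kummerN hC hθ hNtop hf.lc hmul hf2
  have hz0 : z ≠ 0 := by
    rintro rfl
    rw [map_zero] at hz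
    exact pow_ne_zero 2 ht hz
  refine ⟨t, z, ht, hz0, hz, hk, ?_, norm_sq hC
    (fun x hx => trans_roots (F := K) hC hnr x hx) hθ hNtop hmul hf2 hz hk⟩
  intro P hP
  have hKF : ∀ p : k[X], algebraMap K K (algebraMap k[X] K p) =
      algebraMap k[X] K (p.map (algebraMap k k)) := by
    intro p
    rw [Algebra.algebraMap_self, Algebra.algebraMap_self, Polynomial.map_id]
    rfl
  unfold IsBad at hP
  push Not at hP
  obtain ⟨hD1, hns⟩ := hP
  have hDle : P.valuation N (algebraMap k[X] N D) ≤ 1 := by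
    rw [IsScalarTower.algebraMap_apply k[X] R N]
    exact P.valuation_le_one _
  have hD1 : P.valuation N (algebraMap k[X] N D) = 1 := le_antisymm hDle hD1
  refine parMP (k := k) (k' := k) (K := K) (F := K) (M := N) (B := R) hKF hθ hC hf hf2 hloc ht hz
    hk P ?_
  refine locSmP_tw (k := k) (k' := k) (K := K) (F := K) (M := N) (B := R) hKF P ?_ ?_
  · rw [← IsScalarTower.algebraMap_apply k[X] K N]
    exact hD1
  · rintro ⟨h1, h3⟩
    have e1 : cub' (crvC (algebraMap k[X] K a2) (algebraMap k[X] K a4)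
        (algebraMap k[X] K a6)) θ = fxAt a2 a4 θ := by
      simp only [cub', crvC, fxAt, ← IsScalarTower.algebraMap_apply k[X] K N]
    have e3 : ftd K a2 a4 a6 θ = ftAt a2 a4 a6 θ := by
      simp only [ftd, ftAt, ← IsScalarTower.algebraMap_apply k[X] K N]
    rw [e1] at h1
    rw [e3] at h3
    exact absurd h3 (not_lt.2 (hns h1))

end layer

end Pool.Agent.TH115.GD
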