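import Pool.Agent.TH115.TC.AllB
import Pool.Agent.TH115.SK.LTg
import Pool.Agent.TH115.SK.Defs

/-!
The arithmetic 2-descent over `k(t)` for elliptic curves without points of order two: the group of the
first descent.
-/

set_option autoImplicit false
set_option linter.all false

open Polynomial IsDedekindDomain WeierstrassCurve WeierstrassCurve.Affine WithZero
open scoped Classical nonZeroDivisors

namespace Pool.Agent.TH115.GD

section reps

variable {k K N R : Type} [Field k] [Field K] [Algebra k[X] K] [IsFractionRing k[X] K]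
  [Field N] [Algebra K N] [Algebra k[X] N] [IsScalarTower k[X] K N]
  [CommRing R] [IsDedekindDomain R] [Algebra R N] [IsFractionRing R N]
  [Algebra k[X] R] [IsScalarTower k[X] R N] [Module.Finite k[X] R] [Module.IsTorsionFree k[X] R]

/-- The condition of the first descent. -/
def EvB (K R : Type) {k N : Type} [Field k] [Field K] [Field N] [Algebra K N] [Algebra k[X] N]
    [CommRing R] [IsDedekindDomain R] [Algebra R N] [IsFractionRing R N]
    (a2 a4 a6 D : k[X]) (θ z : N) : Prop :=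
  (∀ P : HeightOneSpectrum R, ¬ IsBad a2 a4 a6 D θ P → IsSquare (P.valuation N z)) ∧
    IsSquare (Algebra.norm K z)

theorem bad_reps {a2 a4 a6 : k[X]} (hΔ : (crvC (algebraMap k[X] K a2) (algebraMap k[X] K a4)
      (algebraMap k[X] K a6)).Δ ≠ 0)
    (hnrK : ∀ x : K, cub (crvC (algebraMap k[X] K a2) (algebraMap k[X] K a4)
      (algebraMap k[X] K a6)) x ≠ 0) {θ : N}
    (hθ : cub (crvC (algebraMap k[X] K a2) (algebraMap k[X] K a4)
      (algebraMap k[X] K a6)) θ = 0) (hN : IntermediateField.adjoin K {θ} = ⊤)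
    {S0 : Finset N} {d : ℕ} (hS1 : S0.card ≤ 2 ^ d)
    (hS2 : ∀ z : N, z ≠ 0 → (∀ v : HeightOneSpectrum R, IsSquare (v.valuation N z)) →
      ∃ w ∈ S0, ∃ (u : k) (g : N), u ≠ 0 ∧ g ≠ 0 ∧ z = algebraMap k[X] N (C u) * g ^ 2 * w)
    {D : k[X]} (hD0 : D ≠ 0) :
    FiniteDimensional K N ∧ Odd (Module.finrank K N) ∧
    ∃ S : Finset N, S.card ≤ 2 ^ (d + badSum R a2 a4 a6 D θ) ∧
      ∀ z : N, z ≠ 0 → EvB K R a2 a4 a6 D θ z → ∃ w ∈ S,
        ∃ (u : k) (g : N), u ≠ 0 ∧ g ≠ 0 ∧ z = algebraMap k[X] N (C u) * g ^ 2 * w := by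
  obtain ⟨hfd, hsep⟩ := sepN (N := N) rfl rfl hΔ hθ hN
  haveI : IsIntegralClosure R k[X] N := inferInstance
  have hinj : Function.Injective (algebraMap k[X] R) :=
    Module.isTorsionFree_iff_algebraMap_injective.1 inferInstance
  have hrank : Odd (Module.finrank k[X] R) := by
    rw [← IsFractionRing.finrank_eq k[X] K R N]
    have hr : aeval θ (cubP (crvC (algebraMap k[X] K a2) (algebraMap k[X] K a4)
        (algebraMap k[X] K a6)) K) = 0 := by
      rw [cubP_aeval]
      exact hθ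
    have hmin : minpoly K θ = cubP (crvC (algebraMap k[X] K a2) (algebraMap k[X] K a4)
        (algebraMap k[X] K a6)) K :=
      (minpoly.eq_of_irreducible_of_monic (cubP_irr hnrK) hr cubP_deg.2).symm
    have hint : IsIntegral K θ := ⟨_, cubP_deg.2, hr⟩
    have h1 := IntermediateField.adjoin.finrank hint
    rw [hN, IntermediateField.finrank_top', hmin, cubP_deg.1] at h1
    rw [h1]
    exact ⟨1, rfl⟩
  choose P1 hP1 hP1' using exists_oddP (A := k[X]) (R := R) hrank
  let P0 : HeightOneSpectrum k[X] → HeightOneSpectrum R := fun v =>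
    if h : ∃ P : HeightOneSpectrum R, IsBad a2 a4 a6 D θ P ∧ P.under k[X] = v ∧
      Odd (relDegree k[X] P) then h.choose else P1 v
  have hP0b : ∀ v, (∃ P : HeightOneSpectrum R, IsBad a2 a4 a6 D θ P ∧ P.under k[X] = v ∧
      Odd (relDegree k[X] P)) → IsBad a2 a4 a6 D θ (P0 v) := by
    intro v h
    have e : P0 v = h.choose := dif_pos h
    rw [e]
    exact h.choose_spec.1
  have hP0 : ∀ v, (P0 v).under k[X] = v := by
    intro v
    by_cases h : ∃ P : HeightOneSpectrum R, IsBad a2 a4 a6 D θ P ∧ P.under k[X] = v ∧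
      Odd (relDegree k[X] P)
    · have e : P0 v = h.choose := dif_pos h
      rw [e]
      exact h.choose_spec.2.1
    · have e : P0 v = P1 v := dif_neg h
      rw [e]
      exact hP1 v
  have hP0' : ∀ v, Odd (dg k[X] (P0 v)) := by
    intro v
    by_cases h : ∃ P : HeightOneSpectrum R, IsBad a2 a4 a6 D θ P ∧ P.under k[X] = v ∧
      Odd (relDegree k[X] P)
    · have e : P0 v = h.choose := dif_pos h
      rw [e]
      exact h.choose_spec.2.2
    · have e : P0 v = P1 v := dif_neg h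
      rw [e]
      exact hP1' v
  -- the bad primes
  have hDN0 : algebraMap k[X] N D ≠ 0 := by
    rw [IsScalarTower.algebraMap_apply k[X] R N, Ne,
      map_eq_zero_iff _ (IsFractionRing.injective R N), map_eq_zero_iff _ hinj]
    exact hD0
  have hfR : {P : HeightOneSpectrum R | IsBad a2 a4 a6 D θ P}.Finite := by
    refine ((finite_lt (R := R) hDN0).union (finite_lt (R := R) (fx_ne (K := K) hΔ hθ))).subset ?_
    rintro P (hP | hP)
    · exact Or.inl hP
    · exact Or.inr hP.1
  have hfA : {v : HeightOneSpectrum k[X] | ∃ P : HeightOneSpectrum R, IsBad a2 a4 a6 D θ P ∧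
      P.under k[X] = v ∧ Odd (relDegree k[X] P)}.Finite := by
    refine (hfR.image (fun P => P.under k[X])).subset ?_
    rintro v ⟨P, hP, hv, -⟩
    exact ⟨P, hP, hv⟩
  let TR := hfR.toFinset
  let TA := hfA.toFinset
  have hTR : ∀ P, P ∈ TR ↔ IsBad a2 a4 a6 D θ P := fun P => by simp [TR]
  have hTA : ∀ v, v ∈ TA ↔ ∃ P : HeightOneSpectrum R, IsBad a2 a4 a6 D θ P ∧
      P.under k[X] = v ∧ Odd (relDegree k[X] P) := fun v => by simp [TA]
  have hP0inj : Function.Injective P0 := fun v w h => by rw [← hP0 v, ← hP0 w, h]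
  have hsub : TA.image P0 ⊆ TR := by
    intro P hP
    obtain ⟨v, hv, rfl⟩ := Finset.mem_image.1 hP
    rw [hTR]
    exact hP0b v ((hTA v).1 hv)
  set E := TR \ TA.image P0 with hE
  have hEcard : E.card = badSum R a2 a4 a6 D θ := by
    rw [hE, Finset.card_sdiff_of_subset hsub, Finset.card_image_of_injective _ hP0inj]
    unfold badSum
    congr 1
    · exact (Nat.card_eq_card_finite_toFinset hfR).symm
    · exact (Nat.card_eq_card_finite_toFinset hfA).symm
  -- the representatives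
  let Ev : N → Prop := fun z => EvB K R a2 a4 a6 D θ z
  let Pat : N → Finset (HeightOneSpectrum R) → Prop := fun z T => ∀ P ∈ E,
    (IsSquare (P.valuation N z) ↔ P ∉ T)
  let Z : Finset (HeightOneSpectrum R) → N := fun T =>
    if h : ∃ z : N, z ≠ 0 ∧ Ev z ∧ Pat z T then h.choose else 1
  have hZ : ∀ T : Finset (HeightOneSpectrum R), (∃ z : N, z ≠ 0 ∧ Ev z ∧ Pat z T) →
      Z T ≠ 0 ∧ Ev (Z T) ∧ Pat (Z T) T := by
    intro T h
    have e : Z T = h.choose := dif_pos h
    rw [e]
    exact h.choose_spec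
  refine ⟨inferInstance, ?_, (E.powerset ×ˢ S0).image (fun p => Z p.1 * p.2), ?_, ?_⟩
  · rw [IsFractionRing.finrank_eq k[X] K R N]
    exact hrank
  · rw [← hEcard]
    refine Finset.card_image_le.trans ?_
    rw [Finset.card_product, Finset.card_powerset, add_comm, pow_add]
    exact Nat.mul_le_mul_left _ hS1
  · intro z hz hev
    let T := E.filter (fun P => ¬ IsSquare (P.valuation N z))
    have hpat : Pat z T := by
      intro P hP
      constructor
      · intro hsq hmem
        exact (Finset.mem_filter.1 hmem).2 hsq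
      · intro hnm
        by_contra hns
        exact hnm (Finset.mem_filter.2 ⟨hP, hns⟩)
    obtain ⟨hZ0, hZev, hZpat⟩ := hZ T ⟨z, hz, hev, hpat⟩
    have hzZ : z * Z T ≠ 0 := mul_ne_zero hz hZ0
    have hnorm : IsSquare (Algebra.norm K (z * Z T)) := by
      rw [map_mul]
      exact hev.2.mul hZev.2
    -- the primes which are not of the form `P0 v`
    have hA : ∀ P : HeightOneSpectrum R, P ∉ TA.image P0 →
        IsSquare (P.valuation N (z * Z T)) := by
      intro P hP
      rw [map_mul]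
      by_cases hDP : IsBad a2 a4 a6 D θ P
      · have hPE : P ∈ E := Finset.mem_sdiff.2 ⟨(hTR P).2 hDP, hP⟩
        exact sq_mul_of ((hpat P hPE).trans (hZpat P hPE).symm)
      · exact (hev.1 P hDP).mul (hZev.1 P hDP)
    obtain ⟨w, hw, u, g, hu, hg, e1⟩ := hS2 (z * Z T) hzZ (by
      intro P
      by_cases hP : P ∈ TA.image P0
      · obtain ⟨v, hv, rfl⟩ := Finset.mem_image.1 hP
        refine norm_parity' (A := k[X]) (K := K) hzZ hnorm (hP0' v) fun Q hQ hQ' => hA Q ?_
        intro hQm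
        obtain ⟨w, hw, rfl⟩ := Finset.mem_image.1 hQm
        apply hQ'
        rw [hP0, hP0] at hQ
        rw [hQ]
      · exact hA P hP)
    refine ⟨Z T * w, Finset.mem_image.2 ⟨(T, w), Finset.mem_product.2
      ⟨Finset.mem_powerset.2 (Finset.filter_subset _ _), hw⟩, rfl⟩, u, g / Z T, hu,
      div_ne_zero hg hZ0, ?_⟩
    have e3 : z = algebraMap k[X] N (C u) * g ^ 2 * w / Z T := by
      rw [eq_div_iff hZ0]
      exact e1
    rw [e3]
    field_simp

/-- In the arithmetic case no constants are needed. -/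
theorem arith_reps {a2 a4 a6 : k[X]} (hΔ : (crvC (algebraMap k[X] K a2) (algebraMap k[X] K a4)
      (algebraMap k[X] K a6)).Δ ≠ 0)
    (hnrK : ∀ x : K, cub (crvC (algebraMap k[X] K a2) (algebraMap k[X] K a4)
      (algebraMap k[X] K a6)) x ≠ 0) {θ : N}
    (hθ : cub (crvC (algebraMap k[X] K a2) (algebraMap k[X] K a4)
      (algebraMap k[X] K a6)) θ = 0) (hN : IntermediateField.adjoin K {θ} = ⊤)
    {S0 : Finset N} {d : ℕ} (hS1 : S0.card ≤ 2 ^ d)
    (hS2 : ∀ z : N, z ≠ 0 → (∀ v : HeightOneSpectrum R, IsSquare (v.valuation N z)) →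
      ∃ w ∈ S0, ∃ (u : k) (g : N), u ≠ 0 ∧ g ≠ 0 ∧ z = algebraMap k[X] N (C u) * g ^ 2 * w)
    {D : k[X]} (hD0 : D ≠ 0) :
    ∃ S : Finset N, S.card ≤ 2 ^ (d + badSum R a2 a4 a6 D θ) ∧
      ∀ z : N, z ≠ 0 → EvB K R a2 a4 a6 D θ z → ∃ w ∈ S, ∃ g : N, g ≠ 0 ∧ z = g ^ 2 * w := by
  obtain ⟨hfd, hodd, S, hS, hS'⟩ := bad_reps (K := K) (R := R) hΔ hnrK hθ hN hS1 hS2 hD0
  let Pr : N → N → Prop := fun w z => z ≠ 0 ∧ EvB K R a2 a4 a6 D θ z ∧
    ∃ (u : k) (g : N), u ≠ 0 ∧ g ≠ 0 ∧ z = algebraMap k[X] N (C u) * g ^ 2 * w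
  let G : N → N := fun w => if h : ∃ z, Pr w z then h.choose else 1
  have hG : ∀ w, (∃ z, Pr w z) → Pr w (G w) := by
    intro w h
    have e : G w = h.choose := dif_pos h
    rw [e]
    exact h.choose_spec
  refine ⟨S.image G, Finset.card_image_le.trans hS, ?_⟩
  intro z hz hev
  obtain ⟨w, hw, u, g, hu, hg, e⟩ := hS' z hz hev
  obtain ⟨hG0, hGev, u', g', hu', hg', e'⟩ := hG w ⟨z, hz, hev, u, g, hu, hg, e⟩
  refine ⟨G w, Finset.mem_image_of_mem _ hw, ?_⟩
  have hw0 : w ≠ 0 := by
    rintro rfl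
    rw [mul_zero] at e
    exact hz e
  have cn : ∀ {u : k}, u ≠ 0 → algebraMap k[X] K (C u) ≠ 0 := by
    intro u hu
    rw [Ne, map_eq_zero_iff _ (IsFractionRing.injective k[X] K)]
    exact C_ne_zero.2 hu
  set c : K := algebraMap k[X] K (C u) / algebraMap k[X] K (C u') with hc
  have hc0 : c ≠ 0 := div_ne_zero (cn hu) (cn hu')
  have eN : ∀ u : k, algebraMap k[X] N (C u) = algebraMap K N (algebraMap k[X] K (C u)) := fun u =>
    IsScalarTower.algebraMap_apply k[X] K N _
  have hz2 : z = algebraMap K N c * (g / g') ^ 2 * G w := by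
    rw [hc, map_div₀, ← eN, ← eN]
    conv_rhs => rw [e']
    conv_lhs => rw [e]
    have h1 : algebraMap k[X] N (C u') ≠ 0 := by
      rw [eN, _root_.map_ne_zero]
      exact cn hu'
    field_simp
  -- the constant is a square
  have hsq : IsSquare c := by
    obtain ⟨x, hx⟩ := hev.2
    obtain ⟨y, hy⟩ := hGev.2
    have h1 := congrArg (Algebra.norm K) hz2
    rw [map_mul, map_mul, map_pow, Algebra.norm_algebraMap, hx, hy] at h1
    have hy0 : y ≠ 0 := by
      rintro rfl
      rw [mul_zero, Algebra.norm_eq_zero_iff] at hy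
      exact hG0 hy
    have hn0 : Algebra.norm K (g / g') ≠ 0 := by
      rw [Ne, Algebra.norm_eq_zero_iff]
      exact div_ne_zero hg hg'
    obtain ⟨m, hm⟩ := hodd
    rw [hm, pow_succ, pow_mul] at h1
    refine ⟨x / (c ^ m * Algebra.norm K (g / g') * y), ?_⟩
    have hcm : c ^ m ≠ 0 := pow_ne_zero _ hc0
    field_simp
    have h3 : x * x = (c ^ 2) ^ m * c * Algebra.norm K (g / g') ^ 2 * (y * y) := h1
    have h5 : (c ^ 2) ^ m = (c ^ m) ^ 2 := by ring
    rw [h5] at h3
    linear_combination -h3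
  obtain ⟨s, hs⟩ := hsq
  refine ⟨algebraMap K N s * (g / g'), mul_ne_zero ?_ (div_ne_zero hg hg'), ?_⟩
  · rw [_root_.map_ne_zero]
    rintro rfl
    rw [mul_zero] at hs
    exact hc0 hs
  · rw [mul_pow, ← map_pow, pow_two s, ← hs]
    exact hz2

end reps

end Pool.Agent.TH115.GD
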